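import Pool.Agent.H49.FOS.Defs

/-!
# TRN: ternary forms, generic `k`-rank by cutting the triangle of exponents (statements)
-/

set_option autoImplicit false

namespace Pool.TRN

open MvPolynomial Pool.FOS

/-- The value of a polynomial in two variables at an exponent. -/
noncomputable def ev (a : ℕ × ℕ) (q : MvPolynomial (Fin 2) ℂ) : ℂ :=
  eval ![(a.1 : ℂ), (a.2 : ℂ)] q

/-- `s` points of multiplicity `m` suffice for polynomials with exponents in `D`. -/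
def Cov (m s : ℕ) (D : Finset (ℕ × ℕ)) : Prop :=
  ∃ P : Fin s → ℂ × ℂ, ∀ c : ℕ × ℕ → ℂ,
    (∀ (i : Fin s) (q : MvPolynomial (Fin 2) ℂ), q.totalDegree < m →
      ∑ a ∈ D, c a * ev a q * ((P i).1 ^ a.1 * (P i).2 ^ a.2) = 0) → ∀ a ∈ D, c a = 0

/-- The box `{0, ..., L - 1}²`. -/
def box (L : ℕ) : Finset (ℕ × ℕ) := Finset.range L ×ˢ Finset.range L

/-- The triangle. -/
def Tri (D : ℕ) : Finset (ℕ × ℕ) := (box (D + 1)).filter fun a => a.1 + a.2 ≤ D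

/-- The upper region. -/
def Up (d h j : ℕ) : Finset (ℕ × ℕ) :=
  (box (h + j * (d + 1))).filter fun a =>
    (d + 2) * h ≤ a.1 + (d + 2) * a.2 ∧ a.1 + a.2 < h + j * (d + 1)

/-- The `j`-th strip of the upper region. -/
def Str (d h j : ℕ) : Finset (ℕ × ℕ) :=
  (box (h + (j + 1) * (d + 1))).filter fun a =>
    (d + 2) * h ≤ a.1 + (d + 2) * a.2 ∧ h + j * (d + 1) ≤ a.1 + a.2 ∧
      a.1 + a.2 < h + (j + 1) * (d + 1)

/-- The lower region. -/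
def Lo (d h D : ℕ) : Finset (ℕ × ℕ) :=
  (box (D + 1)).filter fun a => a.1 + (d + 2) * a.2 < (d + 2) * h ∧ a.1 + a.2 ≤ D

/-- The left end of the `p`-th pair of the lower region. -/
def aa (d e p : ℕ) : ℕ := p * (d + 2 + e) + p * (p - 1) / 2

/-! ### general lemmas -/

/-- PEL: one point suffices if the rows `p x + y = const` can be peeled. -/
def PELStmt : Prop :=
  ∀ (m p : ℕ) (D : Finset (ℕ × ℕ)) (f : ℕ → ℕ),
    (∀ a ∈ D, (D.filter fun b => p * b.1 + b.2 = p * a.1 + a.2).card + f (p * a.1 + a.2) ≤ m) →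
    (∀ a ∈ D, ∀ b ∈ D, f (p * a.1 + a.2) = f (p * b.1 + b.2) →
      p * a.1 + a.2 = p * b.1 + b.2) → Cov m 1 D

/-- CUT: the region may be cut by a line. -/
def CUTStmt : Prop :=
  ∀ (m s₁ s₂ v₁ v₂ : ℕ) (D₁ D₂ : Finset (ℕ × ℕ)),
    (∀ a ∈ D₁, ∀ b ∈ D₂, v₁ * a.1 + v₂ * a.2 < v₁ * b.1 + v₂ * b.2) →
    Cov m s₁ D₁ → Cov m s₂ D₂ → Cov m (s₁ + s₂) (D₁ ∪ D₂)

/-- SBS: smaller regions. -/
def SBSStmt : Prop :=
  ∀ (m s : ℕ) (D D' : Finset (ℕ × ℕ)), D' ⊆ D → Cov m s D → Cov m s D'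

/-! ### the upper region -/

/-- STU: the `j`-th strip of the upper region: `2 j + 1` points. -/
def STUStmt : Prop := ∀ d h j : ℕ, Cov (d + 1) (2 * j + 1) (Str d h j)

/-- UPR: the upper region: `j ^ 2` points. -/
def UPRStmt : Prop := ∀ d h j : ℕ, Cov (d + 1) (j ^ 2) (Up d h j)

/-! ### the lower region -/

/-- LOR: the lower region: `2 P + 1` points. -/
def LORStmt : Prop :=
  ∀ d h D P : ℕ, h ≤ d + 1 → D ≤ d + aa d (d + 1 - h) P → Cov (d + 1) (2 * P + 1) (Lo d h D)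

/-- TRG: the triangle. -/
def TRGStmt : Prop :=
  ∀ d h D K P : ℕ, h ≤ d + 1 → D + 1 = h + K * (d + 1) → D ≤ d + aa d (d + 1 - h) P →
    Cov (d + 1) (K ^ 2 + 2 * P + 1) (Tri D)

/-! ### from the triangle to the tangent map -/

/-- DIF: the conditions at a point. -/
def DIFStmt : Prop :=
  ∀ (m : ℕ) (P : Fin 2 → ℂ) (A : MvPolynomial (Fin 2) ℂ), A ∈ mI P ^ m →
    ∀ q : MvPolynomial (Fin 2) ℂ, q.totalDegree < m →
      ∑ a ∈ A.support, coeff a A * eval (fun i => (a i : ℂ)) q * (P 0 ^ a 0 * P 1 ^ a 1) = 0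

/-- VNT: the vanishing theorem. -/
def VNTStmt : Prop :=
  ∀ m s D : ℕ, Cov m s (Tri D) → ∃ P : Fin s → Fin 2 → ℂ,
    ∀ A : MvPolynomial (Fin 2) ℂ, A.totalDegree ≤ D → (∀ i, A ∈ mI (P i) ^ m) → A = 0

/-- ONG: the tangent map is onto, arbitrary points. -/
def ONGStmt : Prop :=
  ∀ (p k d s : ℕ) (P : Fin s → Fin (p + 1) → ℂ), 1 ≤ k →
    (∀ A : MvPolynomial (Fin (p + 1)) ℂ, A.totalDegree ≤ k * d →
      (∀ i, A ∈ mI (P i) ^ (d + 1)) → A = 0) → Onto (p + 2) k d s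

/-! ### the lower bound -/

/-- LOW: the dimension count. -/
def LOWStmt : Prop :=
  ∀ n k d s : ℕ, s * Nat.card {m : Fin n →₀ ℕ // m.degree = d} <
    Nat.card {m : Fin n →₀ ℕ // m.degree = k * d} → ¬ GenLe n k d s

/-- CNT: the number of monomials in three variables. -/
def CNTStmt : Prop :=
  ∀ D : ℕ, 2 * Nat.card {m : Fin 3 →₀ ℕ // m.degree = D} = (D + 1) * (D + 2)

/-! ### numbers and the result -/

/-- NMA: the numbers for `k ^ 2 - 2 q`. -/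
def NMAStmt : Prop :=
  ∀ k d q : ℕ, 1 ≤ k → k ≤ d + 2 → q < k → 2 * q * d ≤ (k - 1 - q) * (3 * k - q) →
    k * d + 1 = (d + 2 - k) + (k - 1) * (d + 1) ∧
    k * d ≤ d + aa d (d + 1 - (d + 2 - k)) (k - 1 - q) ∧
    (k - 1) ^ 2 + 2 * (k - 1 - q) + 1 = k ^ 2 - 2 * q

/-- NMB: for large `d` the bound is the conjectured value plus at most two. -/
def NMBStmt : Prop :=
  ∀ k d s : ℕ, 1 ≤ k → 6 * k ^ 3 ≤ d ^ 2 → (k * d + 1) * (k * d + 2) ≤ s * ((d + 1) * (d + 2)) →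
    ∃ q, q < k ∧ 2 * q * d ≤ (k - 1 - q) * (3 * k - q) ∧ k ^ 2 - 2 * q ≤ s + 2

/-- MON: more powers. -/
def MONStmt : Prop := ∀ n k d s t : ℕ, 1 ≤ k → s ≤ t → GenLe n k d s → GenLe n k d t

/-- RES: the result. -/
def RESStmt : Prop :=
  ∀ k d : ℕ, 2 ≤ k → 1 ≤ d →
    (∀ h K P : ℕ, h ≤ d + 1 → k * d + 1 = h + K * (d + 1) →
      k * d ≤ d + P * (2 * d + 3 - h) + P * (P - 1) / 2 → GenLe 3 k d (K ^ 2 + 2 * P + 1)) ∧
    (∀ q : ℕ, k ≤ d + 2 → q < k → 2 * q * d ≤ (k - 1 - q) * (3 * k - q) →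
      GenLe 3 k d (k ^ 2 - 2 * q)) ∧
    (∀ s : ℕ, 6 * k ^ 3 ≤ d ^ 2 → (k * d + 1) * (k * d + 2) ≤ s * ((d + 1) * (d + 2)) →
      GenLe 3 k d (s + 2)) ∧
    (∀ s : ℕ, s * ((d + 1) * (d + 2)) < (k * d + 1) * (k * d + 2) → ¬ GenLe 3 k d s)

end Pool.TRN
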