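import Pool.Agent.H49.TRN.S1

/-!
# TRN: cutting a region by a line
-/

set_option autoImplicit false

namespace Pool.TRN

open MvPolynomial Pool.FOS

namespace CutAux

/-- The condition with a monomial. -/
noncomputable def mc (P : ℂ × ℂ) (α β : ℕ) (a : ℕ × ℕ) : ℂ :=
  (a.1 : ℂ) ^ α * (a.2 : ℂ) ^ β * (P.1 ^ a.1 * P.2 ^ a.2)

/-- The linear map of all conditions with monomials. -/
noncomputable def LL (m s : ℕ) (P : Fin s → ℂ × ℂ) (D : Finset (ℕ × ℕ)) :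
    (D → ℂ) →ₗ[ℂ] (Fin s × Fin m × Fin m → ℂ) where
  toFun x := fun i => if (i.2.1 : ℕ) + i.2.2 < m then
    ∑ a : D, x a * mc (P i.1) i.2.1 i.2.2 a.1 else 0
  map_add' x y := by
    funext i
    simp only [Pi.add_apply]
    split_ifs
    · rw [← Finset.sum_add_distrib]
      exact Finset.sum_congr rfl fun a _ => by ring
    · simp
  map_smul' r x := by
    funext i
    simp only [Pi.smul_apply, smul_eq_mul, RingHom.id_apply]
    split_ifs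
    · rw [Finset.mul_sum]
      exact Finset.sum_congr rfl fun a _ => by ring
    · simp

theorem ev_mono (a : ℕ × ℕ) (α β : ℕ) :
    ev a (X 0 ^ α * X 1 ^ β) = (a.1 : ℂ) ^ α * (a.2 : ℂ) ^ β := by
  simp [ev]

theorem deg_mono (α β m : ℕ) (h : α + β < m) :
    (X 0 ^ α * X 1 ^ β : MvPolynomial (Fin 2) ℂ).totalDegree < m := by
  refine lt_of_le_of_lt (totalDegree_mul _ _) ?_
  rw [totalDegree_X_pow, totalDegree_X_pow]
  exact h

theorem ev_expand (a : ℕ × ℕ) (q : MvPolynomial (Fin 2) ℂ) :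
    ev a q = ∑ e ∈ q.support, coeff e q * ((a.1 : ℂ) ^ e 0 * (a.2 : ℂ) ^ e 1) := by
  rw [ev, eval_eq']
  refine Finset.sum_congr rfl fun e _ => ?_
  simp [Fin.prod_univ_two]

/-- From the monomials to all polynomials. -/
theorem all_of_mono (m : ℕ) (P : ℂ × ℂ) (D : Finset (ℕ × ℕ)) (c : ℕ × ℕ → ℂ)
    (h : ∀ α β : ℕ, α + β < m → ∑ a ∈ D, c a * mc P α β a = 0)
    (q : MvPolynomial (Fin 2) ℂ) (hq : q.totalDegree < m) :
    ∑ a ∈ D, c a * ev a q * (P.1 ^ a.1 * P.2 ^ a.2) = 0 := by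
  have e1 : ∀ a ∈ D, c a * ev a q * (P.1 ^ a.1 * P.2 ^ a.2) =
      ∑ e ∈ q.support, coeff e q * (c a * mc P (e 0) (e 1) a) := by
    intro a _
    rw [ev_expand, Finset.mul_sum, Finset.sum_mul]
    refine Finset.sum_congr rfl fun e _ => ?_
    simp only [mc]
    ring
  rw [Finset.sum_congr rfl e1, Finset.sum_comm]
  refine Finset.sum_eq_zero fun e he => ?_
  rw [← Finset.mul_sum, h (e 0) (e 1) ?_, mul_zero]
  have h1 := le_totalDegree he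
  have h2 : (e.sum fun _ x => x) = e 0 + e 1 := by
    rw [Finsupp.sum_fintype _ _ (fun _ => rfl), Fin.sum_univ_two]
  omega

theorem LL_eq (m s : ℕ) (P : Fin s → ℂ × ℂ) (D : Finset (ℕ × ℕ)) (c : ℕ × ℕ → ℂ)
    (i : Fin s × Fin m × Fin m) (hi : (i.2.1 : ℕ) + i.2.2 < m) :
    LL m s P D (fun a => c a.1) i = ∑ a ∈ D, c a * mc (P i.1) i.2.1 i.2.2 a := by
  simp only [LL, LinearMap.coe_mk, AddHom.coe_mk, if_pos hi]
  exact Finset.sum_coe_sort D fun a => c a * mc (P i.1) i.2.1 i.2.2 a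

theorem key (m s : ℕ) (P : Fin s → ℂ × ℂ) (D E : Finset (ℕ × ℕ)) (hDE : Disjoint D E)
    (hP : ∀ c : ℕ × ℕ → ℂ,
      (∀ (i : Fin s) (q : MvPolynomial (Fin 2) ℂ), q.totalDegree < m →
        ∑ a ∈ D, c a * ev a q * ((P i).1 ^ a.1 * (P i).2 ^ a.2) = 0) → ∀ a ∈ D, c a = 0) :
    ∃ C : ℝ, 0 < C ∧ ∀ c : ℕ × ℕ → ℂ,
      (∀ (i : Fin s) (q : MvPolynomial (Fin 2) ℂ), q.totalDegree < m →
        ∑ a ∈ D ∪ E, c a * ev a q * ((P i).1 ^ a.1 * (P i).2 ^ a.2) = 0) →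
      ∀ M : ℝ, 0 ≤ M → (∀ b ∈ E, ‖c b‖ ≤ M) → ∀ a ∈ D, ‖c a‖ ≤ C * M := by
  classical
  have hinj : LinearMap.ker (LL m s P D) = ⊥ := by
    rw [LinearMap.ker_eq_bot']
    intro x hx
    funext a
    let c : ℕ × ℕ → ℂ := fun b => if hb : b ∈ D then x ⟨b, hb⟩ else 0
    have hxc : x = fun a : D => c a.1 := by
      funext b
      simp [c, b.2]
    have := hP c (fun i q hq => all_of_mono m (P i) D c (fun α β hab => ?_) q hq) a.1 a.2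
    · rw [hxc]; exact this
    · have h1 := LL_eq m s P D c (i, ⟨α, by omega⟩, ⟨β, by omega⟩) hab
      rw [← hxc, hx] at h1
      exact h1.symm
  obtain ⟨G, hG⟩ := LinearMap.exists_leftInverse_of_injective _ hinj
  let T : (E → ℂ) →ₗ[ℂ] (D → ℂ) := G ∘ₗ LL m s P E
  let T' := LinearMap.toContinuousLinearMap T
  refine ⟨‖T'‖ + 1, by positivity, fun c hc M hM hb a ha => ?_⟩
  have e1 : LL m s P D (fun a => c a.1) = - LL m s P E (fun a => c a.1) := by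
    funext i
    by_cases hi : (i.2.1 : ℕ) + i.2.2 < m
    · rw [Pi.neg_apply, LL_eq m s P D c i hi, LL_eq m s P E c i hi, eq_neg_iff_add_eq_zero,
        ← Finset.sum_union hDE]
      have h1 := hc i.1 (X 0 ^ (i.2.1 : ℕ) * X 1 ^ (i.2.2 : ℕ)) (deg_mono _ _ _ hi)
      rw [← h1]
      refine Finset.sum_congr rfl fun b _ => ?_
      rw [ev_mono, mc]
      ring
    · simp [LL, hi]
  have e2 : (fun a : D => c a.1) = - T (fun a => c a.1) := by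
    have h2 : G (LL m s P D (fun a => c a.1)) = fun a : D => c a.1 := by
      have := LinearMap.congr_fun hG (fun a : D => c a.1)
      simpa using this
    rw [← h2, e1, map_neg]
    rfl
  have e3 : c a = - T (fun a => c a.1) ⟨a, ha⟩ := congrFun e2 ⟨a, ha⟩
  rw [e3, norm_neg]
  have e4 : ‖T (fun a => c a.1) ⟨a, ha⟩‖ ≤ ‖T (fun a : E => c a.1)‖ := norm_le_pi_norm _ _
  have e5 : ‖T (fun a : E => c a.1)‖ ≤ ‖T'‖ * ‖fun a : E => c a.1‖ := T'.le_opNorm _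
  have e6 : ‖fun a : E => c a.1‖ ≤ M := (pi_norm_le_iff_of_nonneg hM).2 fun b => hb b.1 b.2
  have e7 : ‖T'‖ * ‖fun a : E => c a.1‖ ≤ ‖T'‖ * M :=
    mul_le_mul_of_nonneg_left e6 (norm_nonneg _)
  nlinarith [norm_nonneg T']

end CutAux

open CutAux

theorem t_cut : CUTStmt := by
  classical
  intro m s₁ s₂ v₁ v₂ D₁ D₂ hv ⟨P, hP⟩ ⟨Q, hQ⟩
  have hdis : Disjoint D₁ D₂ := by
    rw [Finset.disjoint_left]
    intro a h1 h2
    exact lt_irrefl _ (hv a h1 a h2)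
  obtain ⟨C₁, hC₁, k₁⟩ := key m s₁ P D₁ D₂ hdis hP
  obtain ⟨C₂, hC₂, k₂⟩ := key m s₂ Q D₂ D₁ hdis.symm hQ
  obtain ⟨μ, hμd⟩ : ∃ μ : ℕ, μ = D₁.sup fun a => v₁ * a.1 + v₂ * a.2 := ⟨_, rfl⟩
  have hμ : ∀ a ∈ D₁, v₁ * a.1 + v₂ * a.2 ≤ μ := fun a ha => by
    rw [hμd]
    exact Finset.le_sup (f := fun a : ℕ × ℕ => v₁ * a.1 + v₂ * a.2) ha
  obtain ⟨n₁, hn1d⟩ : ∃ n₁ : ℝ, n₁ = D₁.card := ⟨_, rfl⟩
  obtain ⟨n₂, hn2d⟩ : ∃ n₂ : ℝ, n₂ = D₂.card := ⟨_, rfl⟩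
  have hn₁ : 0 ≤ n₁ := by rw [hn1d]; exact Nat.cast_nonneg _
  have hn₂ : 0 ≤ n₂ := by rw [hn2d]; exact Nat.cast_nonneg _
  obtain ⟨t, htd⟩ : ∃ t : ℝ, t = n₁ * C₁ * (n₂ * C₂) + 1 := ⟨_, rfl⟩
  have ht1 : 1 ≤ t := by
    have : 0 ≤ n₁ * C₁ * (n₂ * C₂) := by positivity
    rw [htd]; linarith
  have ht0 : 0 < t := by linarith
  refine ⟨Fin.append P (fun j => ((t : ℂ) ^ v₁ * (Q j).1, (t : ℂ) ^ v₂ * (Q j).2)), ?_⟩
  intro c hc
  have h1 : ∀ (i : Fin s₁) (q : MvPolynomial (Fin 2) ℂ), q.totalDegree < m →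
      ∑ a ∈ D₁ ∪ D₂, c a * ev a q * ((P i).1 ^ a.1 * (P i).2 ^ a.2) = 0 := by
    intro i q hq
    have := hc (Fin.castAdd s₂ i) q hq
    simpa only [Fin.append_left] using this
  obtain ⟨w, hwd⟩ : ∃ w : ℕ × ℕ → ℂ, ∀ a, w a = c a * (t : ℂ) ^ (v₁ * a.1 + v₂ * a.2) :=
    ⟨_, fun _ => rfl⟩
  have h2 : ∀ (i : Fin s₂) (q : MvPolynomial (Fin 2) ℂ), q.totalDegree < m →
      ∑ a ∈ D₂ ∪ D₁, w a * ev a q * ((Q i).1 ^ a.1 * (Q i).2 ^ a.2) = 0 := by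
    intro i q hq
    have := hc (Fin.natAdd s₁ i) q hq
    simp only [Fin.append_right] at this
    rw [Finset.union_comm, ← this]
    refine Finset.sum_congr rfl fun a _ => ?_
    rw [hwd, mul_pow, mul_pow, ← pow_mul, ← pow_mul, pow_add]
    ring
  obtain ⟨N₁, hN1d⟩ : ∃ N₁ : ℝ, N₁ = ∑ a ∈ D₁, ‖c a‖ := ⟨_, rfl⟩
  obtain ⟨N₂, hN2d⟩ : ∃ N₂ : ℝ, N₂ = ∑ a ∈ D₂, ‖c a‖ := ⟨_, rfl⟩
  have hN₁ : 0 ≤ N₁ := by rw [hN1d]; exact Finset.sum_nonneg fun a _ => norm_nonneg _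
  have hN₂ : 0 ≤ N₂ := by rw [hN2d]; exact Finset.sum_nonneg fun a _ => norm_nonneg _
  have b1 : ∀ a ∈ D₁, ‖c a‖ ≤ N₁ := fun a ha => by
    rw [hN1d]
    exact Finset.single_le_sum (f := fun a => ‖c a‖) (fun a _ => norm_nonneg _) ha
  have b2 : ∀ a ∈ D₂, ‖c a‖ ≤ N₂ := fun a ha => by
    rw [hN2d]
    exact Finset.single_le_sum (f := fun a => ‖c a‖) (fun a _ => norm_nonneg _) ha
  have g1 : ∀ a ∈ D₁, ‖c a‖ ≤ C₁ * N₂ := k₁ c h1 N₂ hN₂ b2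
  have hnt : ‖(t : ℂ)‖ = t := by
    rw [Complex.norm_real, Real.norm_of_nonneg ht0.le]
  have wn : ∀ a, ‖w a‖ = ‖c a‖ * t ^ (v₁ * a.1 + v₂ * a.2) := by
    intro a
    rw [hwd, norm_mul, norm_pow, hnt]
  have g2 : ∀ b ∈ D₂, ‖w b‖ ≤ C₂ * (N₁ * t ^ μ) := by
    refine k₂ w h2 (N₁ * t ^ μ) (by positivity) fun a ha => ?_
    rw [wn]
    exact mul_le_mul (b1 a ha) (pow_le_pow_right₀ ht1 (hμ a ha)) (by positivity) hN₁
  have g3 : ∀ b ∈ D₂, ‖c b‖ * t ≤ C₂ * N₁ := by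
    intro b hb
    have hvb : ∀ a ∈ D₁, v₁ * a.1 + v₂ * a.2 + 1 ≤ v₁ * b.1 + v₂ * b.2 := fun a ha => hv a ha b hb
    rcases D₁.eq_empty_or_nonempty with he | hne
    · have hN0 : N₁ = 0 := by rw [hN1d, he, Finset.sum_empty]
      have h3 := g2 b hb
      rw [hN0, zero_mul, mul_zero, wn] at h3
      have h4 : 0 < t ^ (v₁ * b.1 + v₂ * b.2) := by positivity
      have h5 : ‖c b‖ ≤ 0 := by
        by_contra hcon
        push Not at hcon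
        have : 0 < ‖c b‖ * t ^ (v₁ * b.1 + v₂ * b.2) := mul_pos hcon h4
        linarith
      have h6 : ‖c b‖ = 0 := le_antisymm h5 (norm_nonneg _)
      rw [h6, hN0]; simp
    · obtain ⟨a₀, ha₀, hmax⟩ := D₁.exists_mem_eq_sup hne fun a => v₁ * a.1 + v₂ * a.2
      have hle : μ + 1 ≤ v₁ * b.1 + v₂ * b.2 := by
        have := hvb a₀ ha₀
        have hmu : μ = v₁ * a₀.1 + v₂ * a₀.2 := hμd.trans hmax
        omega
      have h3 := g2 b hb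
      rw [wn] at h3
      have h4 : ‖c b‖ * t ^ (μ + 1) ≤ ‖c b‖ * t ^ (v₁ * b.1 + v₂ * b.2) :=
        mul_le_mul_of_nonneg_left (pow_le_pow_right₀ ht1 hle) (norm_nonneg _)
      have h5 : (‖c b‖ * t) * t ^ μ ≤ (C₂ * N₁) * t ^ μ := by
        calc (‖c b‖ * t) * t ^ μ = ‖c b‖ * t ^ (μ + 1) := by ring
          _ ≤ C₂ * (N₁ * t ^ μ) := h4.trans h3
          _ = (C₂ * N₁) * t ^ μ := by ring
      exact le_of_mul_le_mul_right h5 (by positivity)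
  have s1 : N₁ ≤ n₁ * (C₁ * N₂) := by
    have := Finset.sum_le_sum g1
    rw [Finset.sum_const, nsmul_eq_mul, ← hN1d, ← hn1d] at this
    exact this
  have s2 : N₂ * t ≤ n₂ * (C₂ * N₁) := by
    have h3 : N₂ * t = ∑ b ∈ D₂, ‖c b‖ * t := by rw [hN2d, Finset.sum_mul]
    have := Finset.sum_le_sum g3
    rw [Finset.sum_const, nsmul_eq_mul, ← h3, ← hn2d] at this
    exact this
  have s3 : N₂ = 0 := by
    have h3 : N₂ * t ≤ (n₁ * C₁ * (n₂ * C₂)) * N₂ := by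
      calc N₂ * t ≤ n₂ * (C₂ * N₁) := s2
        _ ≤ n₂ * (C₂ * (n₁ * (C₁ * N₂))) := by gcongr
        _ = (n₁ * C₁ * (n₂ * C₂)) * N₂ := by ring
    have h4 : N₂ * t = (n₁ * C₁ * (n₂ * C₂)) * N₂ + N₂ := by
      rw [htd]; ring
    linarith
  have s4 : N₁ = 0 := by
    have : N₁ ≤ 0 := by rw [s3] at s1; simpa using s1
    linarith
  intro a ha
  rw [Finset.mem_union] at ha
  have : ‖c a‖ ≤ 0 := by
    rcases ha with ha | ha
    · exact (b1 a ha).trans s4.le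
    · exact (b2 a ha).trans s3.le
  exact norm_le_zero_iff.1 this

end Pool.TRN
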