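import Pool.Agent.H49.TRN.CUT
import Pool.Agent.H49.FOS.TER
import Pool.Agent.H61.FOS.JAC
import Pool.Agent.H62.FOS.DOM
import Pool.Agent.H27.FOS.DU1
import Pool.Agent.H27.FOS.DU2
import Pool.Agent.H2.TRN.DIF
import Pool.Agent.H2.TRN.LOW
import Pool.Agent.H2.TRN.VNT
import Pool.Agent.H36.TRN.NM
import Pool.Agent.H55.TRN.ONG
import Pool.Agent.H55.TRN.SBS
import Pool.Agent.H55.TRN.TRG
import Pool.Agent.H55.TRN.UPR
import Pool.Agent.H79.TRN.CNT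
import Pool.Agent.H79.TRN.MON
import Pool.Agent.H85.TRN.ST
import Pool.Agent.H97.TRN.PEL
import Pool.Agent.H97.TRN.RES

/-!
# TRN: assembly
-/

set_option autoImplicit false

namespace Pool.TRN

open MvPolynomial Pool.FOS

/-- The generic `k`-rank of forms of degree `k * d` in `n` variables is `s`. -/
def GenRk (n k d s : ℕ) : Prop := GenLe n k d s ∧ ∀ t < s, ¬ GenLe n k d t

theorem trg_all : TRGStmt :=
  t_trg t_cut t_sbs (t_upr t_cut t_sbs (t_stu t_pel t_cut t_sbs)) (t_lor t_pel t_cut t_sbs)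

theorem res_all : RESStmt :=
  t_res trg_all (t_vnt t_dif) (t_ong t_du1 t_du2) (t_ter t_jac t_dom) t_low t_cnt t_nma t_nmb t_mon

/-- Exact values. -/
theorem exact_of (k d s : ℕ) (hk : 2 ≤ k) (hd : 1 ≤ d) (h : GenLe 3 k d s) (hs : 1 ≤ s)
    (hl : (s - 1) * ((d + 1) * (d + 2)) < (k * d + 1) * (k * d + 2)) : GenRk 3 k d s := by
  refine ⟨h, fun t ht => (res_all k d hk hd).2.2.2 t ?_⟩
  refine lt_of_le_of_lt (Nat.mul_le_mul_right _ ?_) hl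
  omega

theorem two_num (k d : ℕ) (hk : 3 ≤ k) (hd : k ^ 2 - k - 2 ≤ d) :
    (k ^ 2 - 2 - 1) * ((d + 1) * (d + 2)) < (k * d + 1) * (k * d + 2) := by
  obtain ⟨c, rfl⟩ : ∃ c, k = c + 3 := ⟨k - 3, by omega⟩
  have h1 : (c + 3) ^ 2 - (c + 3) - 2 = c ^ 2 + 5 * c + 4 := by
    have : (c + 3) ^ 2 = c ^ 2 + 6 * c + 9 := by ring
    omega
  have h2 : (c + 3) ^ 2 - 2 - 1 = c ^ 2 + 6 * c + 6 := by
    have : (c + 3) ^ 2 = c ^ 2 + 6 * c + 9 := by ring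
    omega
  rw [h1] at hd
  rw [h2]
  obtain ⟨x, rfl⟩ : ∃ x, d = c ^ 2 + 5 * c + 4 + x := ⟨d - (c ^ 2 + 5 * c + 4), by omega⟩
  nlinarith [Nat.zero_le c, Nat.zero_le x, Nat.zero_le (c * x), Nat.zero_le (c ^ 2 * x),
    Nat.zero_le (x ^ 2), Nat.zero_le (c ^ 2), Nat.zero_le (c ^ 3), Nat.zero_le (c ^ 4)]

theorem trn_all (k d : ℕ) (hk : 2 ≤ k) (hd : 1 ≤ d) :
    (∀ q : ℕ, k ≤ d + 2 → q < k → 2 * q * d ≤ (k - 1 - q) * (3 * k - q) →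
      GenLe 3 k d (k ^ 2 - 2 * q) ∧
      ((k ^ 2 - 2 * q - 1) * ((d + 1) * (d + 2)) < (k * d + 1) * (k * d + 2) →
        GenRk 3 k d (k ^ 2 - 2 * q))) ∧
    (3 ≤ k → k ^ 2 - k - 2 ≤ d → 2 * d ≤ (k - 2) * (3 * k - 1) → GenRk 3 k d (k ^ 2 - 2)) ∧
    (6 * k ^ 3 ≤ d ^ 2 → ∀ s : ℕ, (k * d + 1) * (k * d + 2) ≤ s * ((d + 1) * (d + 2)) →
      GenLe 3 k d (s + 2)) ∧
    (∀ h K P : ℕ, h ≤ d + 1 → k * d + 1 = h + K * (d + 1) →
      k * d ≤ d + P * (2 * d + 3 - h) + P * (P - 1) / 2 → GenLe 3 k d (K ^ 2 + 2 * P + 1)) := by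
  have hpos : ∀ q : ℕ, q < k → 1 ≤ k ^ 2 - 2 * q := by
    intro q hq
    obtain ⟨c, rfl⟩ : ∃ c, k = q + 1 + c := ⟨k - (q + 1), by omega⟩
    have : (q + 1 + c) ^ 2 = 2 * q + 1 + (q ^ 2 + c ^ 2 + 2 * c * (q + 1)) := by ring
    omega
  refine ⟨fun q h1 h2 h3 => ?_, fun h1 h2 h3 => ?_, fun h s hs => ?_, (res_all k d hk hd).1⟩
  · have hg := (res_all k d hk hd).2.1 q h1 h2 h3
    exact ⟨hg, fun hl => exact_of k d _ hk hd hg (hpos q h2) hl⟩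
  · have hkd : k ≤ d + 2 := by
      obtain ⟨c, rfl⟩ : ∃ c, k = c + 3 := ⟨k - 3, by omega⟩
      have : (c + 3) ^ 2 = c ^ 2 + 6 * c + 9 := by ring
      have : 0 ≤ c ^ 2 := Nat.zero_le _
      omega
    have hg := (res_all k d hk hd).2.1 1 hkd (by omega) (by
      have e1 : k - 1 - 1 = k - 2 := by omega
      rw [e1]
      simpa using h3)
    exact exact_of k d _ hk hd (by simpa using hg) (by simpa using hpos 1 (by omega))
      (two_num k d h1 h2)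
  · exact (res_all k d hk hd).2.2.1 s h hs

end Pool.TRN
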