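import Mathlib
import Pool.Agent.H49.TRN.All

/-! The generic `k`-rank of ternary forms. -/

set_option autoImplicit false

namespace Pool.TRN.Old

open Pool.FOS Pool.TRN

/-- **Theorem.** Let `k ≥ 2`, `d ≥ 1`. The general ternary form of degree `k * d` is a sum of
`k ^ 2 - 2 q` `k`-th powers of forms of degree `d` if `2 q d ≤ (k - 1 - q) (3 k - q)`
(and `k ≤ d + 2`), and this is the exact generic `k`-rank if
`(k ^ 2 - 2 q - 1) (d + 1) (d + 2) < (k d + 1) (k d + 2)`; the generic `k`-rank is `k ^ 2 - 2` for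
`k ≥ 3` and `k ^ 2 - k - 2 ≤ d ≤ (k - 2) (3 k - 1) / 2`; if `6 k ^ 3 ≤ d ^ 2` it is at most two more
than the value of the dimension count. -/
theorem result (k d : ℕ) (hk : 2 ≤ k) (hd : 1 ≤ d) :
    (∀ q : ℕ, k ≤ d + 2 → q < k → 2 * q * d ≤ (k - 1 - q) * (3 * k - q) →
      GenLe 3 k d (k ^ 2 - 2 * q) ∧
      ((k ^ 2 - 2 * q - 1) * ((d + 1) * (d + 2)) < (k * d + 1) * (k * d + 2) →
        GenRk 3 k d (k ^ 2 - 2 * q))) ∧
    (3 ≤ k → k ^ 2 - k - 2 ≤ d → 2 * d ≤ (k - 2) * (3 * k - 1) → GenRk 3 k d (k ^ 2 - 2)) ∧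
    (6 * k ^ 3 ≤ d ^ 2 → ∀ s : ℕ, (k * d + 1) * (k * d + 2) ≤ s * ((d + 1) * (d + 2)) →
      GenLe 3 k d (s + 2)) ∧
    (∀ h K P : ℕ, h ≤ d + 1 → k * d + 1 = h + K * (d + 1) →
      k * d ≤ d + P * (2 * d + 3 - h) + P * (P - 1) / 2 → GenLe 3 k d (K ^ 2 + 2 * P + 1)) :=
  trn_all k d hk hd

end Pool.TRN.Old
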